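import Pool.Agent.Helper57.MT.Goals
import Pool.Agent.Helper69.LG.ME

/-! # ZN (project MC2): numerical sums -/

set_option autoImplicit false

open Finset Filter Topology

open scoped Classical

namespace Pool.Agent.Helper33.MT

open Pool.Agent.Helper57.MT (SE)

theorem sum_SE_le (K1 L : ℕ) (x : ℕ → ℝ) (hx : ∀ l, 0 ≤ x l) :
    ∑ e ∈ SE K1 L, ∏ l ∈ e.primeFactors, x l ≤
      Real.exp (∑ l ∈ (Icc 1 L).filter (fun l : ℕ => l.Prime ∧ K1 < l), x l) := by
  have h1 : ∑ e ∈ SE K1 L, ∏ l ∈ e.primeFactors, x l =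
      ∑ A ∈ (SE K1 L).image Nat.primeFactors, ∏ l ∈ A, x l := by
    rw [sum_image]
    intro e he e' he' h
    have h1 : Squarefree e := (mem_filter.1 (mem_coe.1 he)).2.1
    have h2 : Squarefree e' := (mem_filter.1 (mem_coe.1 he')).2.1
    rw [← Nat.prod_primeFactors_of_squarefree h1, ← Nat.prod_primeFactors_of_squarefree h2]
    exact prod_congr h fun _ _ => rfl
  have h2 : (SE K1 L).image Nat.primeFactors ⊆
      ((Icc 1 L).filter (fun l : ℕ => l.Prime ∧ K1 < l)).powerset := by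
    intro A hA
    obtain ⟨e, he, rfl⟩ := mem_image.1 hA
    rw [mem_powerset]
    intro l hl
    have h3 := (mem_filter.1 he).2.2 l (Nat.prime_of_mem_primeFactors hl)
      (Nat.dvd_of_mem_primeFactors hl)
    have h4 := Nat.prime_of_mem_primeFactors hl
    rw [mem_filter, mem_Icc]
    exact ⟨⟨h4.pos, h3.2⟩, h4, h3.1⟩
  rw [h1]
  refine (sum_le_sum_of_subset_of_nonneg h2 fun A _ _ => prod_nonneg fun l _ => hx l).trans ?_
  rw [← prod_one_add, Real.exp_sum]
  refine prod_le_prod (fun l _ => by linarith [hx l]) fun l _ => ?_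
  have := Real.add_one_le_exp (x l)
  linarith

theorem zn : Pool.Agent.Helper57.MT.StmtZN := by
  intro K hK
  obtain ⟨C0, hC0, hME⟩ := Pool.Agent.Helper69.LG.me
  have hK1 : (1 : ℝ) ≤ K := by exact_mod_cast hK
  have hl2 : 0 < Real.log 2 := Real.log_pos (by norm_num)
  set c1 : ℝ := 1 / 2 + C0 / Real.log 2 with hc1
  refine ⟨Real.exp (2 * K * c1) / Real.log 2 ^ (2 * K) + 1, ?_, fun L hL => ⟨?_, ?_⟩⟩
  · have : 0 ≤ Real.exp (2 * K * c1) / Real.log 2 ^ (2 * K) := by positivity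
    linarith
  · have h1 := sum_SE_le (K ^ 2) L (fun l => 2 * (K : ℝ) / (l : ℝ) ^ 2) (fun l => by positivity)
    have h2 : ∑ e ∈ SE (K ^ 2) L, (2 * (K : ℝ)) ^ e.primeFactors.card / (e : ℝ) ^ 2 =
        ∑ e ∈ SE (K ^ 2) L, ∏ l ∈ e.primeFactors, (2 * (K : ℝ) / (l : ℝ) ^ 2) := by
      refine sum_congr rfl fun e he => ?_
      have h3 : Squarefree e := (mem_filter.1 he).2.1
      rw [prod_div_distrib, prod_const, prod_pow]
      congr 2
      rw [← Nat.cast_prod, Nat.prod_primeFactors_of_squarefree h3]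
    rw [h2]
    refine h1.trans ?_
    have h4 : ∑ l ∈ (Icc 1 L).filter (fun l : ℕ => l.Prime ∧ K ^ 2 < l),
        2 * (K : ℝ) / (l : ℝ) ^ 2 ≤ 2 := by
      by_cases hKL : K ^ 2 ≤ L
      · have h5 : ∑ l ∈ (Icc 1 L).filter (fun l : ℕ => l.Prime ∧ K ^ 2 < l),
            2 * (K : ℝ) / (l : ℝ) ^ 2 ≤ ∑ l ∈ Ioc (K ^ 2) L, 2 * (K : ℝ) / (l : ℝ) ^ 2 := by
          refine sum_le_sum_of_subset_of_nonneg ?_ fun l _ _ => by positivity
          intro l hl
          rw [mem_filter, mem_Icc] at hl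
          rw [mem_Ioc]
          exact ⟨hl.2.2, hl.1.2⟩
        have h6 : ∑ l ∈ Ioc (K ^ 2) L, 2 * (K : ℝ) / (l : ℝ) ^ 2 =
            2 * K * ∑ l ∈ Ioc (K ^ 2) L, ((l : ℝ) ^ 2)⁻¹ := by
          rw [mul_sum]
          exact sum_congr rfl fun l _ => by rw [div_eq_mul_inv]
        have h7 : ∑ l ∈ Ioc (K ^ 2) L, ((l : ℝ) ^ 2)⁻¹ ≤ ((K ^ 2 : ℕ) : ℝ)⁻¹ - (L : ℝ)⁻¹ :=
          sum_Ioc_inv_sq_le_sub (by positivity) hKL
        have h8 : (0 : ℝ) ≤ (L : ℝ)⁻¹ := by positivity
        have h9 : 2 * (K : ℝ) * ((K ^ 2 : ℕ) : ℝ)⁻¹ ≤ 2 := by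
          push_cast
          rw [← div_eq_mul_inv, div_le_iff₀ (by positivity)]
          nlinarith
        calc _ ≤ 2 * K * ∑ l ∈ Ioc (K ^ 2) L, ((l : ℝ) ^ 2)⁻¹ := h5.trans h6.le
          _ ≤ 2 * K * ((K ^ 2 : ℕ) : ℝ)⁻¹ :=
            mul_le_mul_of_nonneg_left (by linarith) (by positivity)
          _ ≤ 2 := h9
      · have h5 : (Icc 1 L).filter (fun l : ℕ => l.Prime ∧ K ^ 2 < l) = ∅ := by
          rw [filter_eq_empty_iff]
          intro l hl h
          rw [mem_Icc] at hl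
          omega
        rw [h5, sum_empty]
        norm_num
    refine (Real.exp_le_exp.2 h4).trans ?_
    have h5 := Real.exp_one_lt_d9
    have h6 : Real.exp 2 = Real.exp 1 * Real.exp 1 := by
      rw [← Real.exp_add]
      norm_num
    have h7 := Real.exp_pos 1
    rw [h6]
    nlinarith
  · have h1 := sum_SE_le (K ^ 2) L (fun l => 2 * (K : ℝ) / (l : ℝ)) (fun l => by positivity)
    have h2 : ∑ e ∈ SE (K ^ 2) L, (2 * (K : ℝ)) ^ e.primeFactors.card / (e : ℝ) =
        ∑ e ∈ SE (K ^ 2) L, ∏ l ∈ e.primeFactors, (2 * (K : ℝ) / (l : ℝ)) := by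
      refine sum_congr rfl fun e he => ?_
      have h3 : Squarefree e := (mem_filter.1 he).2.1
      rw [prod_div_distrib, prod_const]
      congr 1
      rw [← Nat.cast_prod, Nat.prod_primeFactors_of_squarefree h3]
    rw [h2]
    refine h1.trans ?_
    have hL' : (3 : ℝ) ≤ L := by exact_mod_cast hL
    have hlL : Real.log 2 ≤ Real.log L := Real.log_le_log (by norm_num) (by linarith)
    have hlL0 : 0 < Real.log L := by linarith
    have h3 := hME 2 L (by norm_num) (by linarith)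
    have h4 : ∑ l ∈ (Icc 1 L).filter (fun l : ℕ => l.Prime ∧ K ^ 2 < l), 2 * (K : ℝ) / (l : ℝ) ≤
        2 * K * (c1 + Real.log (Real.log L / Real.log 2)) := by
      have h5 : ∑ l ∈ (Icc 1 L).filter (fun l : ℕ => l.Prime ∧ K ^ 2 < l),
          2 * (K : ℝ) / (l : ℝ) =
          2 * K * ∑ l ∈ (Icc 1 L).filter (fun l : ℕ => l.Prime ∧ K ^ 2 < l), 1 / (l : ℝ) := by
        rw [mul_sum]
        exact sum_congr rfl fun l _ => by ring
      rw [h5]
      refine mul_le_mul_of_nonneg_left ?_ (by positivity)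
      have h6 : (Icc 1 L).filter (fun l : ℕ => l.Prime ∧ K ^ 2 < l) ⊆
          insert 2 ((Icc 1 L).filter (fun p : ℕ => p.Prime ∧ (2 : ℝ) < (p : ℝ))) := by
        intro l hl
        rw [mem_filter] at hl
        rw [mem_insert, mem_filter]
        rcases hl.2.1.two_le.eq_or_lt with h | h
        · exact Or.inl h.symm
        · exact Or.inr ⟨hl.1, hl.2.1, by exact_mod_cast h⟩
      have h7 := sum_le_sum_of_subset_of_nonneg (f := fun l : ℕ => 1 / (l : ℝ)) h6
        fun l _ _ => by positivity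
      rw [sum_insert (by simp)] at h7
      have h8 : 1 / ((2 : ℕ) : ℝ) = 1 / 2 := by norm_num
      rw [h8] at h7
      rw [hc1]
      linarith
    refine (Real.exp_le_exp.2 h4).trans ?_
    have h5 : Real.exp (2 * K * (c1 + Real.log (Real.log L / Real.log 2))) =
        Real.exp (2 * K * c1) / Real.log 2 ^ (2 * K) * Real.log L ^ (2 * K) := by
      rw [mul_add, Real.exp_add]
      have h6 : (2 * (K : ℝ)) * Real.log (Real.log L / Real.log 2) =
          ((2 * K : ℕ) : ℝ) * Real.log (Real.log L / Real.log 2) := by push_cast; ring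
      rw [h6, Real.exp_nat_mul, Real.exp_log (by positivity), div_pow]
      ring
    rw [h5]
    have h6 : 0 ≤ Real.log L ^ (2 * K) := by positivity
    nlinarith

end Pool.Agent.Helper33.MT
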